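import Pool.Agent.Helper89.Vol.Goals
import Pool.Agent.Helper8.Poly.ATT

/-! # Packet V36-TUP: `V d n` and tuples of points -/

set_option autoImplicit false

namespace Pool.Agent.Helper87.Vol.PkTUP

open MeasureTheory Set Pool.Agent.Helper86.Poly Pool.Agent.Helper8.Poly

theorem thm (h1 : G_MAX) (h2 : G_MX1) (_h3 : G_ATT) : Pool.Agent.Helper89.Vol.G_TUP := by
  intro d n hd hn
  obtain ⟨p, hp1, hp2⟩ := h1 d n (by omega)
  have hV : V d n = (volume (convexHull ℝ (range p))).toReal :=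
    PkATT.Veq h2 d n hd hn p ⟨hp1, hp2⟩
  refine ⟨fun q hq => ⟨?_, fun he => ?_⟩, p, hp1, hV.symm⟩
  · rw [hV]
    exact ENNReal.toReal_mono (PkATT.fin d n p) (hp2 q hq)
  · refine (h2 d n q hd hn ⟨hq, fun r hr => ?_⟩).1
    have h4 : volume (convexHull ℝ (range q)) = volume (convexHull ℝ (range p)) := by
      rw [hV] at he
      exact (ENNReal.toReal_eq_toReal_iff' (PkATT.fin d n q) (PkATT.fin d n p)).1 he
    rw [h4]
    exact hp2 r hr

end Pool.Agent.Helper87.Vol.PkTUP
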